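import Mathlib
import Pool.Agent.H1.LP.Targets

/-!
# LP module DISP: dispersing families of sets (helper15)
-/

namespace Pool.Agent.H15.LP

open Finset
open Pool.Agent.H1.LP

/-- the bad functions for `(S, U)` -/
def bad {R k B : ℕ} (S : Finset (Fin R)) (U : Finset (Fin B)) : Finset (Fin R → Fin k → Fin B) :=
  Fintype.piFinset (fun i => if i ∈ S then Fintype.piFinset (fun _ => Uᶜ) else univ)

theorem mem_bad {R k B : ℕ} {S : Finset (Fin R)} {U : Finset (Fin B)} {f : Fin R → Fin k → Fin B} :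
    f ∈ bad S U ↔ ∀ i ∈ S, ∀ a, f i a ∉ U := by
  unfold bad
  rw [Fintype.mem_piFinset]
  constructor
  · intro h i hi a
    have h1 := h i
    rw [if_pos hi, Fintype.mem_piFinset] at h1
    exact mem_compl.1 (h1 a)
  · intro h i
    by_cases hi : i ∈ S
    · rw [if_pos hi, Fintype.mem_piFinset]
      exact fun a => mem_compl.2 (h i hi a)
    · rw [if_neg hi]
      exact mem_univ _

theorem card_bad {R k B : ℕ} (S : Finset (Fin R)) (U : Finset (Fin B)) :
    (bad (k := k) S U).card = ((B - U.card) ^ k) ^ S.card * (B ^ k) ^ (R - S.card) := by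
  unfold bad
  rw [Fintype.card_piFinset]
  have h1 : ∀ i : Fin R, (if i ∈ S then Fintype.piFinset (fun _ : Fin k => Uᶜ) else univ).card =
      if i ∈ S then (B - U.card) ^ k else B ^ k := by
    intro i
    by_cases hi : i ∈ S
    · rw [if_pos hi, if_pos hi, Fintype.card_piFinset]
      simp [card_compl]
    · rw [if_neg hi, if_neg hi]
      simp
  rw [prod_congr rfl fun i _ => h1 i, prod_ite, prod_const, prod_const]
  congr 2
  · congr 1
    ext i; simp
  · rw [filter_not, card_sdiff]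
    simp

theorem count_ineq {E B : ℕ} (hE : 4 ≤ E) (hEB : E ≤ B) :
    2 ^ (4 * E * B) * 2 ^ B * ((B - 4 * (B / E)) ^ (2 * (4 * E + 1) * E ^ 2)) ^ (B / E) <
      (B ^ (2 * (4 * E + 1) * E ^ 2)) ^ (B / E) := by
  set t := B / E with ht
  set k := 2 * (4 * E + 1) * E ^ 2 with hk
  have hE0 : 0 < E := by omega
  have hB0 : 0 < B := by omega
  have ht1 : 1 ≤ t := (Nat.one_le_div_iff hE0).2 hEB
  have h4t : 4 * t ≤ B := by
    have h1 : E * t ≤ B := Nat.mul_div_le B E
    nlinarith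
  have hB2 : B ≤ 2 * E * t := by
    have h1 : B < E * (t + 1) := Nat.lt_mul_div_succ B hE0
    nlinarith
  -- real form
  have hBr : (0:ℝ) < B := by exact_mod_cast hB0
  have hEr : (4:ℝ) ≤ E := by exact_mod_cast hE
  have htr : (1:ℝ) ≤ t := by exact_mod_cast ht1
  have hB2r : (B : ℝ) ≤ 2 * E * t := by exact_mod_cast hB2
  have hx : ((B - 4 * t : ℕ) : ℝ) ≤ B * Real.exp (-(2 / E)) := by
    rw [Nat.cast_sub h4t]
    push_cast
    have h1 : (1:ℝ) - 2 / E ≤ Real.exp (-(2 / E)) := by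
      have := Real.add_one_le_exp (-(2 / (E:ℝ)))
      linarith
    have h2 : (B : ℝ) - 4 * t ≤ B * (1 - 2 / E) := by
      have h3 : (B : ℝ) * (2 / E) ≤ 4 * t := by
        rw [mul_div_assoc', div_le_iff₀ (by linarith)]
        nlinarith
      linarith
    exact h2.trans (mul_le_mul_of_nonneg_left h1 hBr.le)
  have hkt : (((B - 4 * t : ℕ) : ℝ) ^ k) ^ t ≤
      ((B : ℝ) ^ k) ^ t * Real.exp (-(4 * (4 * E + 1) * E * t)) := by
    have h1 : ((B - 4 * t : ℕ) : ℝ) ^ k ≤ (B * Real.exp (-(2 / E))) ^ k :=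
      pow_le_pow_left₀ (Nat.cast_nonneg _) hx k
    have h2 : (((B - 4 * t : ℕ) : ℝ) ^ k) ^ t ≤ ((B * Real.exp (-(2 / E))) ^ k) ^ t :=
      pow_le_pow_left₀ (by positivity) h1 t
    refine h2.trans (le_of_eq ?_)
    rw [mul_pow, mul_pow, ← Real.exp_nat_mul, ← Real.exp_nat_mul]
    congr 2
    rw [hk]
    push_cast
    field_simp
    ring
  have h2pow : (2:ℝ) ^ (4 * E * B) * 2 ^ B < Real.exp (4 * (4 * E + 1) * E * t) := by
    rw [← pow_add]
    have h1 : (2:ℝ) ^ (4 * E * B + B) = Real.exp (((4 * E * B + B : ℕ) : ℝ) * Real.log 2) := by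
      rw [Real.exp_nat_mul, Real.exp_log (by norm_num)]
    rw [h1]
    refine Real.exp_lt_exp.2 ?_
    have hl := Real.log_two_lt_d9
    have hl0 : 0 < Real.log 2 := Real.log_pos (by norm_num)
    push_cast
    have h2 : (4 * (E:ℝ) * B + B) = (4 * E + 1) * B := by ring
    rw [h2]
    have h3 : (4 * (E:ℝ) + 1) * B ≤ (4 * E + 1) * (2 * E * t) :=
      mul_le_mul_of_nonneg_left hB2r (by linarith)
    have h4 : 0 < (4 * (E:ℝ) + 1) * (2 * E * t) := by positivity
    calc (4 * (E:ℝ) + 1) * B * Real.log 2 ≤ (4 * E + 1) * (2 * E * t) * Real.log 2 :=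
          mul_le_mul_of_nonneg_right h3 hl0.le
      _ < (4 * E + 1) * (2 * E * t) * 2 := mul_lt_mul_of_pos_left (by linarith) h4
      _ = 4 * (4 * E + 1) * E * t := by ring
  have hfinal : (2:ℝ) ^ (4 * E * B) * 2 ^ B * (((B - 4 * t : ℕ) : ℝ) ^ k) ^ t <
      ((B : ℝ) ^ k) ^ t := by
    have hpos : (0:ℝ) < ((B : ℝ) ^ k) ^ t := by positivity
    calc (2:ℝ) ^ (4 * E * B) * 2 ^ B * (((B - 4 * t : ℕ) : ℝ) ^ k) ^ t
        ≤ (2:ℝ) ^ (4 * E * B) * 2 ^ B *
          (((B : ℝ) ^ k) ^ t * Real.exp (-(4 * (4 * E + 1) * E * t))) :=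
          mul_le_mul_of_nonneg_left hkt (by positivity)
      _ = ((2:ℝ) ^ (4 * E * B) * 2 ^ B * Real.exp (-(4 * (4 * E + 1) * E * t))) *
          ((B : ℝ) ^ k) ^ t := by ring
      _ < 1 * ((B : ℝ) ^ k) ^ t := by
          refine mul_lt_mul_of_pos_right ?_ hpos
          rw [Real.exp_neg, ← div_eq_mul_inv, div_lt_one (Real.exp_pos _)]
          exact h2pow
      _ = ((B : ℝ) ^ k) ^ t := one_mul _
  exact_mod_cast hfinal

theorem disp : S_DISP := by
  intro E B hE hEB hkB
  classical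
  set R := 4 * E * B with hR
  set k := 2 * (4 * E + 1) * E ^ 2 with hk
  set t := B / E with ht
  have hE0 : 0 < E := by omega
  have hB0 : 0 < B := by omega
  have ht1 : 1 ≤ t := (Nat.one_le_div_iff hE0).2 hEB
  have htB : t ≤ B := Nat.div_le_self _ _
  have htR : t ≤ R := by
    rw [hR]; nlinarith
  -- a good function
  obtain ⟨f, hf⟩ : ∃ f : Fin R → Fin k → Fin B, ∀ (S : Finset (Fin R)) (U : Finset (Fin B)),
      S.card = t → U.card = 4 * t → ∃ i ∈ S, ∃ a, f i a ∈ U := by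
    by_contra hcon
    push Not at hcon
    have hcov : (univ : Finset (Fin R → Fin k → Fin B)) ⊆
        ((univ : Finset (Finset (Fin R) × Finset (Fin B))).filter
          (fun q => q.1.card = t ∧ q.2.card = 4 * t)).biUnion (fun q => bad q.1 q.2) := by
      intro f _
      obtain ⟨S, U, hS, hU, h⟩ := hcon f
      rw [mem_biUnion]
      exact ⟨(S, U), mem_filter.2 ⟨mem_univ _, hS, hU⟩, mem_bad.2 h⟩
    have h1 := (card_le_card hcov).trans card_biUnion_le
    have h2 : ∀ q ∈ ((univ : Finset (Finset (Fin R) × Finset (Fin B))).filter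
          (fun q => q.1.card = t ∧ q.2.card = 4 * t)),
        (bad (k := k) q.1 q.2).card = ((B - 4 * t) ^ k) ^ t * (B ^ k) ^ (R - t) := by
      intro q hq
      rw [mem_filter] at hq
      rw [card_bad, hq.2.1, hq.2.2]
    rw [sum_congr rfl h2, sum_const, smul_eq_mul] at h1
    have h3 : ((univ : Finset (Finset (Fin R) × Finset (Fin B))).filter
          (fun q => q.1.card = t ∧ q.2.card = 4 * t)).card ≤ 2 ^ R * 2 ^ B := by
      refine (card_filter_le _ _).trans (le_of_eq ?_)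
      rw [card_univ, Fintype.card_prod, Fintype.card_finset, Fintype.card_finset,
        Fintype.card_fin, Fintype.card_fin]
    have h4 : (univ : Finset (Fin R → Fin k → Fin B)).card = (B ^ k) ^ t * (B ^ k) ^ (R - t) := by
      rw [card_univ, Fintype.card_fun, Fintype.card_fun, Fintype.card_fin, Fintype.card_fin,
        Fintype.card_fin, ← pow_add, Nat.add_sub_cancel' htR]
    rw [h4] at h1
    have h5 := count_ineq hE hEB
    rw [← hR, ← hk, ← ht] at h5
    have h6 : 0 < (B ^ k) ^ (R - t) := by positivity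
    have h7 : (2 ^ R * 2 ^ B) * (((B - 4 * t) ^ k) ^ t * (B ^ k) ^ (R - t)) <
        (B ^ k) ^ t * (B ^ k) ^ (R - t) := by
      rw [← mul_assoc]
      exact Nat.mul_lt_mul_of_pos_right h5 h6
    exact absurd (h1.trans (Nat.mul_le_mul_right _ h3)) (not_le.2 h7)
  -- sets of exact size
  have hT : ∀ i : Fin R, ∃ T : Finset (Fin B), univ.image (f i) ⊆ T ∧ T.card = k := by
    intro i
    refine exists_superset_card_eq ?_ (by rw [Fintype.card_fin]; exact hkB)
    refine card_image_le.trans ?_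
    rw [card_univ, Fintype.card_fin]
  choose T hT1 hT2 using hT
  refine ⟨T, hT2, ?_⟩
  intro S U hS hU
  obtain ⟨S', hS', hS'c⟩ := exists_subset_card_eq hS
  obtain ⟨U', hU', hU'c⟩ := exists_subset_card_eq hU
  obtain ⟨i, hi, a, ha⟩ := hf S' U' hS'c hU'c
  exact ⟨i, hS' hi, f i a, hU' ha, hT1 i (mem_image_of_mem _ (mem_univ a))⟩

end Pool.Agent.H15.LP
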