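import Mathlib
import Pool.Agent.H1.LP.Targets

/-!
# LP module LOWP (helper15)
-/

namespace Pool.Agent.H15.LP

open Finset
open Pool.Agent.H1.LP

variable {p B : ℕ}

/-- restriction of `l` to the complement of `I` -/
def res (I : Finset (Fin B)) (l : Fin B → ZMod p) : Fin B → ZMod p :=
  fun j => if j ∈ I then 0 else l j

theorem supp_sub_res (I : Finset (Fin B)) (l : Fin B → ZMod p) : supp (l - res I l) ⊆ I := by
  intro j hj
  by_contra hn
  simp only [supp, mem_filter, mem_univ, true_and] at hj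
  refine hj ?_
  simp [res, hn]

theorem mem_supp {l : Fin B → ZMod p} {j : Fin B} : j ∈ supp l ↔ l j ≠ 0 := by
  simp [supp]

theorem exp_quarter : Real.exp (1 / 4) ≤ 1.3 := by
  have h1 := Real.exp_one_lt_d9
  have h2 : Real.exp (1 / 4) ^ 4 = Real.exp 1 := by
    rw [← Real.exp_nat_mul]
    norm_num
  by_contra hcon
  push Not at hcon
  have h3 : (1.3 : ℝ) ^ 4 < Real.exp (1 / 4) ^ 4 := by
    exact pow_lt_pow_left₀ hcon (by norm_num) (by norm_num)
  rw [h2] at h3
  norm_num at h3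
  linarith

theorem pow_bound {p B g : ℕ} (hp : 1 ≤ p) (h : 4 * p * B ≤ 2 ^ g) :
    (1 + ((p : ℝ) - 1) * (1 / 2 ^ g)) ^ B ≤ 1.3 := by
  have hg : (0:ℝ) < 2 ^ g := by positivity
  have hp' : (1:ℝ) ≤ p := by exact_mod_cast hp
  have hx : 0 ≤ ((p : ℝ) - 1) * (1 / 2 ^ g) := mul_nonneg (by linarith) (by positivity)
  have h1 : 1 + ((p : ℝ) - 1) * (1 / 2 ^ g) ≤ Real.exp (((p : ℝ) - 1) * (1 / 2 ^ g)) := by
    have := Real.add_one_le_exp (((p : ℝ) - 1) * (1 / 2 ^ g))
    linarith
  have h2 : (B : ℝ) * (((p : ℝ) - 1) * (1 / 2 ^ g)) ≤ 1 / 4 := by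
    have h3 : (4 * p * B : ℝ) ≤ 2 ^ g := by exact_mod_cast h
    rw [← mul_assoc, mul_one_div, div_le_iff₀ hg]
    have hB : (0:ℝ) ≤ B := Nat.cast_nonneg _
    nlinarith
  calc (1 + ((p : ℝ) - 1) * (1 / 2 ^ g)) ^ B
      ≤ (Real.exp (((p : ℝ) - 1) * (1 / 2 ^ g))) ^ B := pow_le_pow_left₀ (by linarith) h1 B
    _ = Real.exp (B * (((p : ℝ) - 1) * (1 / 2 ^ g))) := by rw [← Real.exp_nat_mul]
    _ ≤ Real.exp (1 / 4) := Real.exp_le_exp.2 h2
    _ ≤ 1.3 := exp_quarter

theorem lowp (hGEN : S_GEN) (hPH : S_PHASE) : S_LOWP := by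
  intro p B d _ Q _ _ S g s0 I w V al hV hVw hId hT h4 hvi
  classical
  set T : ℝ := ∑ x, V x with hTdef
  have hT0 : 0 ≤ T := sum_nonneg fun x _ => hV x
  set f : (Fin B → ZMod p) → ℂ := fun l => ZMod.stdAddChar (- S.ga l) * FS V l al with hf
  set Low := S.La.filter (fun l => (supp l \ I).card ≤ s0) with hLow
  set LI := S.La.filter (fun l => supp l ⊆ I) with hLI
  have hLIsub : LI ⊆ Low := by
    intro l hl
    rw [hLI, mem_filter] at hl
    rw [hLow, mem_filter]
    refine ⟨hl.1, ?_⟩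
    rw [sdiff_eq_empty_iff_subset.2 hl.2, card_empty]
    exact Nat.zero_le _
  have hIcard : I.card ≤ d := by omega
  have h0LI : (0 : Fin B → ZMod p) ∈ LI := by
    rw [hLI, mem_filter]
    refine ⟨S.zero_mem, fun j hj => ?_⟩
    rw [mem_supp] at hj
    exact absurd rfl hj
  have hLI1 : (1:ℝ) ≤ LI.card := by
    have : 0 < LI.card := card_pos.2 ⟨0, h0LI⟩
    exact_mod_cast this
  have hFS0 : FS V (0 : Fin B → ZMod p) al = (T : ℂ) := by
    unfold FS
    rw [hTdef]
    push_cast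
    refine sum_congr rfl fun x _ => ?_
    have : ip (0 : Fin B → ZMod p) (val al x) = 0 := by simp [ip]
    rw [this, AddChar.map_zero_eq_one, mul_one]
  have hnorm : ∀ c : ZMod p, ‖ZMod.stdAddChar c‖ = 1 := fun c => AddChar.norm_apply _ _
  -- forms inside `I`
  have hin : ∀ l ∈ LI, f l = (T : ℂ) := by
    intro l hl
    rw [hLI, mem_filter] at hl
    have h1 := hPH p B Q I w V al 0 l hVw hl.2
    rw [zero_add, hFS0] at h1
    have h2 : ip l (val al w) = S.ga l := by
      by_contra hn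
      exact hvi ⟨l, hl.1, hl.2, hn⟩
    rw [hf]
    simp only
    rw [h1, h2, ← mul_assoc, ← AddChar.map_add_eq_mul, neg_add_cancel, AddChar.map_zero_eq_one,
      one_mul]
  -- forms not inside `I`
  set G : (Fin B → ZMod p) → ℝ := fun l' => 2 * T * (1 / 2 ^ g) ^ (supp l').card with hG
  have hG0 : ∀ l', 0 ≤ G l' := fun l' => by
    rw [hG]; positivity
  have hres0 : ∀ l ∈ Low \ LI, res I l ≠ 0 := by
    intro l hl h0
    rw [mem_sdiff, hLow, hLI, mem_filter, mem_filter] at hl
    refine hl.2 ⟨hl.1.1, fun j hj => ?_⟩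
    by_contra hn
    have := congrFun h0 j
    simp only [res, if_neg hn, Pi.zero_apply] at this
    exact (mem_supp.1 hj) this
  have hout : ∀ l ∈ Low \ LI, ‖f l‖ ≤ G (res I l) := by
    intro l hl
    have h1 := hPH p B Q I w V al (res I l) (l - res I l) hVw (supp_sub_res I l)
    rw [add_sub_cancel] at h1
    have h2 := hT (res I l) (hres0 l hl) (fun j hj => by simp [res, hj])
    have h3 : ‖f l‖ = ‖FS V (res I l) al‖ := by
      rw [hf]
      simp only
      rw [norm_mul, hnorm, one_mul, h1, norm_mul, hnorm, one_mul]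
    rw [h3, hG]
    simp only
    rw [← hTdef] at h2
    rw [one_div, inv_pow, ← pow_mul, mul_comm (2 * T), ← div_eq_inv_mul, le_div_iff₀ (by positivity)]
    exact h2
  -- fibres of the restriction
  have hfib : ∀ b, ((Low \ LI).filter (fun l => res I l = b)).card ≤ LI.card := by
    intro b
    rcases ((Low \ LI).filter (fun l => res I l = b)).eq_empty_or_nonempty with h0 | ⟨l2, hl2⟩
    · rw [h0, card_empty]; exact Nat.zero_le _
    · refine card_le_card_of_injOn (fun l1 => l1 + -l2) ?_ ?_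
      · intro l1 hl1
        rw [mem_coe, mem_filter, mem_sdiff, hLow, mem_filter] at hl1
        rw [mem_filter, mem_sdiff, hLow, mem_filter] at hl2
        have hsub : supp (l1 + -l2) ⊆ I := by
          intro j hj
          by_contra hn
          rw [mem_supp] at hj
          have h1 := congrFun hl1.2 j
          have h2 := congrFun hl2.2 j
          simp only [res, if_neg hn] at h1 h2
          refine hj ?_
          simp [h1, h2]
        rw [mem_coe, hLI, mem_filter]
        exact ⟨S.add_mem l1 hl1.1.1.1 _ (S.neg_mem _ hl2.1.1.1)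
          ((card_le_card hsub).trans hIcard), hsub⟩
      · intro a _ b _ hab
        exact add_right_cancel hab
  have hsumG : ∑ l ∈ Low \ LI, G (res I l) ≤ LI.card * (2 * T * 0.3) := by
    rw [sum_comp G (res I)]
    have h1 : ∀ b ∈ (Low \ LI).image (res I),
        ((Low \ LI).filter (fun l => res I l = b)).card • G b ≤ (LI.card : ℝ) * G b := by
      intro b _
      rw [nsmul_eq_mul]
      refine mul_le_mul_of_nonneg_right ?_ (hG0 b)
      exact_mod_cast hfib b
    refine (sum_le_sum h1).trans ?_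
    rw [← mul_sum]
    refine mul_le_mul_of_nonneg_left ?_ (Nat.cast_nonneg _)
    have h2 : (Low \ LI).image (res I) ⊆ univ.erase 0 := by
      intro b hb
      rw [mem_image] at hb
      obtain ⟨l, hl, rfl⟩ := hb
      exact mem_erase.2 ⟨hres0 l hl, mem_univ _⟩
    refine (sum_le_sum_of_subset_of_nonneg h2 fun b _ _ => hG0 b).trans ?_
    have h3 : ∑ b ∈ univ.erase (0 : Fin B → ZMod p), G b = (∑ b, G b) - G 0 := by
      rw [sum_erase_eq_sub (mem_univ _)]
    have h4' : ∑ b, G b = 2 * T * (1 + ((p : ℝ) - 1) * (1 / 2 ^ g)) ^ B := by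
      rw [← hGEN p B (1 / 2 ^ g), mul_sum]
    have h5 : G 0 = 2 * T := by
      have : supp (0 : Fin B → ZMod p) = ∅ := by
        ext j; simp [supp]
      rw [hG]
      simp [this]
    rw [h3, h4', h5]
    have hp1 : 1 ≤ p := (Fact.out : p.Prime).one_lt.le
    have h6 := pow_bound hp1 h4
    have h7 : 2 * T * (1 + ((p : ℝ) - 1) * (1 / 2 ^ g)) ^ B ≤ 2 * T * 1.3 :=
      mul_le_mul_of_nonneg_left h6 (by positivity)
    linarith
  have hsplit : ∑ l ∈ Low, f l = ∑ l ∈ Low \ LI, f l + ∑ l ∈ LI, f l :=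
    (sum_sdiff hLIsub).symm
  have hLIsum : ∑ l ∈ LI, f l = (LI.card : ℂ) * (T : ℂ) := by
    rw [sum_congr rfl hin, sum_const, nsmul_eq_mul]
  have hre : -(LI.card * (2 * T * 0.3)) ≤ (∑ l ∈ Low \ LI, f l).re := by
    have h1 : ‖∑ l ∈ Low \ LI, f l‖ ≤ LI.card * (2 * T * 0.3) :=
      (norm_sum_le _ _).trans ((sum_le_sum hout).trans hsumG)
    have h2 := (abs_le.1 (Complex.abs_re_le_norm (∑ l ∈ Low \ LI, f l))).1
    linarith
  change 3 / 8 * T ≤ (∑ l ∈ Low, f l).re
  rw [hsplit, hLIsum, Complex.add_re]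
  have h8 : ((LI.card : ℂ) * (T : ℂ)).re = LI.card * T := by
    rw [← Complex.ofReal_natCast, ← Complex.ofReal_mul, Complex.ofReal_re]
  rw [h8]
  nlinarith

end Pool.Agent.H15.LP
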