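import Mathlib
import Pool.Agent.H1.LP.Targets

/-!
# LP module KEY (helper15)
-/

namespace Pool.Agent.H15.LP

open Finset
open Pool.Agent.H1.LP

theorem mem_supp' {p B : ℕ} {l : Fin B → ZMod p} {j : Fin B} : j ∈ supp l ↔ l j ≠ 0 := by
  simp [supp]

theorem ip_congr {p B : ℕ} {l z z' : Fin B → ZMod p} (h : ∀ j ∈ supp l, z j = z' j) :
    ip l z = ip l z' := by
  unfold ip
  refine sum_congr rfl fun j _ => ?_
  by_cases hj : l j = 0
  · rw [hj, zero_mul, zero_mul]
  · rw [h j (mem_supp'.2 hj)]

/-- the pseudo-density is bounded by `p ^ B` -/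
theorem abs_PD_le {p B d : ℕ} [NeZero p] {Q : Type} (S : Loc p B d) (al : Fin B → Q → ZMod p)
    (x : Fin B → Q) : |PD S al x| ≤ (p : ℝ) ^ B := by
  unfold PD
  refine (abs_sum_le_sum_abs _ _).trans ?_
  have h1 : ∀ l ∈ S.La, |(ZMod.stdAddChar (ip l (val al x) - S.ga l)).re| ≤ (1:ℝ) := by
    intro l _
    refine (Complex.abs_re_le_norm _).trans ?_
    rw [AddChar.norm_apply]
  refine (sum_le_sum h1).trans ?_
  rw [sum_const, nsmul_eq_mul, mul_one]
  have h2 : S.La.card ≤ p ^ B := by
    refine (card_le_univ _).trans (le_of_eq ?_)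
    rw [Fintype.card_fun, ZMod.card, Fintype.card_fin]
  exact_mod_cast h2

/-- number of points agreeing with `y` on `L` -/
theorem card_agree {B : ℕ} {Q : Type} [Fintype Q] [DecidableEq Q] (L : Finset (Fin B))
    (y : Fin B → Q) :
    (univ.filter (fun x : Fin B → Q => Agree L x y)).card = Fintype.card Q ^ (B - L.card) := by
  classical
  have h1 : univ.filter (fun x : Fin B → Q => Agree L x y) =
      Fintype.piFinset (fun j => if j ∈ L then {y j} else (univ : Finset Q)) := by
    ext x
    rw [mem_filter, Fintype.mem_piFinset]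
    constructor
    · rintro ⟨_, h⟩ j
      by_cases hj : j ∈ L
      · rw [if_pos hj]; exact mem_singleton.2 (h j hj)
      · rw [if_neg hj]; exact mem_univ _
    · intro h
      refine ⟨mem_univ _, fun j hj => ?_⟩
      have := h j
      rw [if_pos hj] at this
      exact mem_singleton.1 this
  rw [h1, Fintype.card_piFinset]
  have h2 : ∀ j : Fin B, (if j ∈ L then {y j} else (univ : Finset Q)).card =
      if j ∈ L then 1 else Fintype.card Q := by
    intro j
    by_cases hj : j ∈ L
    · rw [if_pos hj, if_pos hj, card_singleton]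
    · rw [if_neg hj, if_neg hj, card_univ]
  rw [prod_congr rfl fun j _ => h2 j, prod_ite, prod_const_one, one_mul, prod_const]
  congr 1
  rw [filter_not, card_sdiff]
  simp

theorem dense_one {B : ℕ} {Q : Type} [Fintype Q] [DecidableEq Q] {D : ℝ} (hD : 1 < D)
    (hDQ : D ≤ Fintype.card Q) : Dense D (∅ : Finset (Fin B)) (fun _ : Fin B → Q => (1:ℝ)) := by
  refine ⟨fun _ => zero_le_one, fun L _ y => ?_⟩
  rw [sum_const, nsmul_eq_mul, mul_one, card_agree, sum_const, nsmul_eq_mul, mul_one, card_univ,
    Fintype.card_fun, Fintype.card_fin]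
  push_cast
  have hL : L.card ≤ B := by
    have := card_le_univ L
    rwa [Fintype.card_fin] at this
  have h1 : D ^ L.card ≤ (Fintype.card Q : ℝ) ^ L.card :=
    pow_le_pow_left₀ (by linarith) hDQ _
  calc (Fintype.card Q : ℝ) ^ (B - L.card) * D ^ L.card
      ≤ (Fintype.card Q : ℝ) ^ (B - L.card) * (Fintype.card Q : ℝ) ^ L.card :=
        mul_le_mul_of_nonneg_left h1 (by positivity)
    _ = (Fintype.card Q : ℝ) ^ B := by rw [← pow_add, Nat.sub_add_cancel hL]

theorem key (hTYP : S_TYP) (hDEC : S_DEC) (hMAIN : S_MAIN) : S_KEY := by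
  intro p B d _ Q _ _ _ S D s g s0 im ι _ u hs hD hDQ hsD hpg himd hu0 hu1 hcard
  classical
  have hdec := fun i => hDEC B Q D im (u i) hD hDQ (hu0 i) (hu1 i)
  choose N I w V V0 hN hpiece hV00 hV0u hsum hV0 using hdec
  -- typical table
  let J := Option (Σ i : ι, Fin (N i))
  let II : J → Finset (Fin B) := fun o => match o with
    | none => ∅
    | some q => I q.1 q.2
  let VV : J → (Fin B → Q) → ℝ := fun o => match o with
    | none => fun _ => 1
    | some q => V q.1 q.2
  have hdense : ∀ o, Dense D (II o) (VV o) := by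
    intro o
    rcases o with _ | q
    · exact dense_one hD hDQ
    · exact (hpiece q.1 q.2).2.1
  have hcardJ : (Fintype.card J : ℝ) ≤ (Fintype.card ι : ℝ) * (Fintype.card Q : ℝ) ^ B + 1 := by
    have h1 : Fintype.card J = (∑ i, N i) + 1 := by
      change Fintype.card (Option (Σ i : ι, Fin (N i))) = _
      rw [Fintype.card_option, Fintype.card_sigma]
      simp
    rw [h1]
    have h2 : ∑ i, N i ≤ Fintype.card ι * Fintype.card Q ^ B := by
      calc ∑ i, N i ≤ ∑ _i : ι, Fintype.card Q ^ B := sum_le_sum fun i _ => hN i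
        _ = _ := by rw [sum_const, card_univ, smul_eq_mul]
    have h3 : ((∑ i, N i : ℕ) : ℝ) ≤ (Fintype.card ι : ℝ) * (Fintype.card Q : ℝ) ^ B := by
      exact_mod_cast h2
    push_cast at h3 ⊢
    linarith
  obtain ⟨al, hal⟩ := hTYP p B s g Q D J II VV hs hsD hdense
    (lt_of_le_of_lt (mul_le_mul_of_nonneg_right hcardJ (by positivity)) hcard)
  set et : ℝ := 2 * (p : ℝ) ^ B / 2 ^ (g * (s0 + 1)) with het
  have het0 : 0 ≤ et := by rw [het]; positivity
  set vs : ℝ := (p : ℝ) ^ B * (D / Fintype.card Q) ^ (im + 1) * (Fintype.card Q : ℝ) ^ B with hvs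
  have hQ0 : (0:ℝ) < Fintype.card Q := by
    have := Fintype.card_pos (α := Q)
    exact_mod_cast this
  -- pieces
  have hpc : ∀ i a, (Viol S (I i a) (val al (w i a)) → |∑ x, PD S al x * V i a x| ≤
      et * ∑ x, V i a x) ∧ (¬ Viol S (I i a) (val al (w i a)) →
      (3 / 8 - et) * ∑ x, V i a x ≤ ∑ x, PD S al x * V i a x) := by
    intro i a
    obtain ⟨h1, h2, h3, h4⟩ := hpiece i a
    exact hMAIN p B d Q S g s0 (I i a) (w i a) (V i a) al h2.1 h3 (by omega)
      (hal (some ⟨i, a⟩)) hpg
  have hVsum0 : ∀ i a, 0 ≤ ∑ x, V i a x := fun i a => sum_nonneg fun x _ => (hpiece i a).2.1.1 x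
  have hlow : ∀ i a, -(et * ∑ x, V i a x) ≤ ∑ x, PD S al x * V i a x := by
    intro i a
    by_cases hv : Viol S (I i a) (val al (w i a))
    · exact (abs_le.1 ((hpc i a).1 hv)).1
    · have h1 := (hpc i a).2 hv
      have h2 := hVsum0 i a
      nlinarith
  have hV0abs : ∀ i, |∑ x, PD S al x * V0 i x| ≤ vs := by
    intro i
    have h1 : |∑ x, PD S al x * V0 i x| ≤ (p : ℝ) ^ B * ∑ x, V0 i x := by
      refine (abs_sum_le_sum_abs _ _).trans ?_
      rw [mul_sum]
      refine sum_le_sum fun x _ => ?_
      rw [abs_mul, abs_of_nonneg (hV00 i x)]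
      exact mul_le_mul_of_nonneg_right (abs_PD_le S al x) (hV00 i x)
    refine h1.trans ?_
    rw [hvs, mul_assoc]
    refine mul_le_mul_of_nonneg_left ?_ (by positivity)
    rw [div_pow, div_mul_eq_mul_div, le_div_iff₀ (by positivity)]
    exact hV0 i
  have hdecomp : ∀ i, ∑ x, PD S al x * u i x =
      ∑ x, PD S al x * V0 i x + ∑ a, ∑ x, PD S al x * V i a x := by
    intro i
    rw [sum_comm, ← sum_add_distrib]
    refine sum_congr rfl fun x _ => ?_
    rw [hsum i x, mul_add, mul_sum]
  have husum : ∀ i, ∑ a, ∑ x, V i a x ≤ ∑ x, u i x := by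
    intro i
    rw [sum_comm]
    refine sum_le_sum fun x _ => ?_
    rw [hsum i x]
    linarith [hV00 i x]
  refine ⟨al, ?_, ?_, ?_⟩
  · intro i
    rw [hdecomp i]
    have h1 := (abs_le.1 (hV0abs i)).1
    have h2 : -(et * ∑ x, u i x) ≤ ∑ a, ∑ x, PD S al x * V i a x := by
      calc -(et * ∑ x, u i x) ≤ -(et * ∑ a, ∑ x, V i a x) :=
            neg_le_neg (mul_le_mul_of_nonneg_left (husum i) het0)
        _ = ∑ a, -(et * ∑ x, V i a x) := by rw [mul_sum, sum_neg_distrib]
        _ ≤ _ := sum_le_sum fun a _ => hlow i a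
    linarith
  · intro i T w' hT hviol
    rw [hdecomp i]
    have h1 : ∀ a, |∑ x, PD S al x * V i a x| ≤ et * ∑ x, V i a x := by
      intro a
      obtain ⟨hIc, hden, hVw, hVu⟩ := hpiece i a
      by_cases h0 : ∑ x, V i a x = 0
      · have h2 : ∀ x, V i a x = 0 := fun x =>
          (sum_eq_zero_iff_of_nonneg fun x _ => hden.1 x).1 h0 x (mem_univ x)
        have h3 : ∑ x, PD S al x * V i a x = 0 :=
          sum_eq_zero fun x _ => by rw [h2 x, mul_zero]
        rw [h3, h0]
        simp
      · have hpos : 0 < ∑ x, V i a x := lt_of_le_of_ne (hVsum0 i a) (Ne.symm h0)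
        have hsupp : ∀ x, V i a x ≠ 0 → Agree T x w' := by
          intro x hx
          refine hT x fun h2 => hx ?_
          exact le_antisymm (h2 ▸ hVu x) (hden.1 x)
        have hTI : T ⊆ I i a := by
          by_contra hn
          have hL : (T \ I i a).Nonempty := by
            rw [sdiff_nonempty]; exact hn
          have h2 := hden.2 (T \ I i a) sdiff_disjoint w'
          have h3 : ∑ x with Agree (T \ I i a) x w', V i a x = ∑ x, V i a x := by
            rw [sum_filter]
            refine sum_congr rfl fun x _ => ?_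
            by_cases hx : V i a x = 0
            · rw [hx]; simp
            · rw [if_pos]
              exact fun j hj => hsupp x hx j (mem_sdiff.1 hj).1
          rw [h3] at h2
          have h4 : 1 < D ^ (T \ I i a).card := one_lt_pow₀ hD (card_pos.2 hL).ne'
          nlinarith
        obtain ⟨x0, hx0⟩ : ∃ x, V i a x ≠ 0 := by
          by_contra hcon
          push Not at hcon
          exact h0 (sum_eq_zero fun x _ => hcon x)
        obtain ⟨l, hl, hlT, hlv⟩ := hviol
        refine (hpc i a).1 ⟨l, hl, hlT.trans hTI, ?_⟩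
        have e1 : ip l (val al (w i a)) = ip l (val al x0) := ip_congr fun j hj => by
          simp only [Pool.Agent.H1.LP.val]
          rw [hVw x0 hx0 j (hTI (hlT hj))]
        have e2 : ip l (val al w') = ip l (val al x0) := ip_congr fun j hj => by
          simp only [Pool.Agent.H1.LP.val]
          rw [hsupp x0 hx0 j (hlT hj)]
        rw [e1, ← e2]
        exact hlv
    have h2 : |∑ a, ∑ x, PD S al x * V i a x| ≤ et * ∑ x, u i x := by
      calc |∑ a, ∑ x, PD S al x * V i a x| ≤ ∑ a, |∑ x, PD S al x * V i a x| :=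
            abs_sum_le_sum_abs _ _
        _ ≤ ∑ a, et * ∑ x, V i a x := sum_le_sum fun a _ => h1 a
        _ = et * ∑ a, ∑ x, V i a x := by rw [mul_sum]
        _ ≤ _ := mul_le_mul_of_nonneg_left (husum i) het0
    calc |∑ x, PD S al x * V0 i x + ∑ a, ∑ x, PD S al x * V i a x|
        ≤ |∑ x, PD S al x * V0 i x| + |∑ a, ∑ x, PD S al x * V i a x| := abs_add_le _ _
      _ ≤ vs + et * ∑ x, u i x := add_le_add (hV0abs i) h2
      _ = _ := by ring
  · -- the constant function
    have hnv : ¬ Viol S ∅ (val al (Classical.arbitrary (Fin B → Q))) := by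
      rintro ⟨l, hl, hlT, hlv⟩
      have hl0 : l = 0 := by
        funext j
        by_contra hj
        have := hlT (mem_supp'.2 hj)
        simp at this
      have hga : S.ga 0 = 0 := by
        have h1 := S.add_ga 0 S.zero_mem 0 S.zero_mem (by
          rw [add_zero]; exact S.small 0 S.zero_mem)
        rw [add_zero] at h1
        exact left_eq_add.1 h1
      rw [hl0, hga] at hlv
      exact hlv (by simp [ip])
    have h1 := (hMAIN p B d Q S g s0 ∅ (Classical.arbitrary (Fin B → Q)) (fun _ => 1) al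
      (fun _ => zero_le_one) (fun x _ j hj => absurd hj (notMem_empty j)) (by simp; omega)
      (hal none) hpg).2 hnv
    have h2 : ∑ _x : Fin B → Q, (1:ℝ) = (Fintype.card Q : ℝ) ^ B := by
      rw [sum_const, nsmul_eq_mul, mul_one, card_univ, Fintype.card_fun, Fintype.card_fin]
      push_cast
      rfl
    rw [h2] at h1
    simpa using h1

end Pool.Agent.H15.LP
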